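import Pool.Agent.W5h21.WN.Ar

/-!
# Tate's Birch–Swinnerton-Dyer conjecture over function fields as a statement about fibre averages

`f : 𝒳 → 𝒴` is a smooth projective family over a number field `K`, without constant part, `X` is its
generic fibre, `F ⊇ K` is a number field, and `n = m + 1` is the dimension of the model of `𝒴_F` over the
ring of integers of `F`.  For a prime `v` of `F` let `-b_v` be the fibre average of the traces of the
Frobenius on `H¹` (the number of the points of `𝒳` over the residue field, in the case of a family of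
curves).  Nagao's conjecture says that the means of the numbers `b_v`, with the weights `log q_v` for
`q_v ≤ T`, converge to the rank of `Pic⁰_X(F(𝒴))`; it is neither known to imply nor to follow from
Tate's conjecture Q1 for `X` over `F(𝒴)` without further hypotheses about the zeros of `Φ₁` on the line
`Re s = n` (Rosen and Silverman).

Here is a statement about the averages `b_v` which is EQUIVALENT to Q1, the continuation of `Φ₁` to a
neighbourhood of `n` included.  For `λ > 0` and `N = 0, 1, 2, ...` consider the mean

`T_N(λ) = λ^{N+1} / N! · ∑_v b_v (log q_v)^{N+1} q_v^{-1-λ}`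

of the numbers `b_v` over a window: the weights `(log q_v / q_v) · λ (λ log q_v)^N e^{-λ log q_v} / N!` are
given by the density of a gamma distribution, with `log q_v` of size `N / λ ± √N / λ`.  Then, for every
`λ > 0` and every integer `r`:

`Φ₁` has a meromorphic continuation to a neighbourhood of `n`, with order of vanishing `r` there, if and
only if `T_N(λ)` converges to `r` exponentially fast: `|T_N(λ) - r| ≤ B ϱ^N` for some `ϱ < 1`.

In particular Q1 for `X` over `F(𝒴)` says exactly that the windows converge exponentially fast to the rank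
of `Pic⁰_X(F(𝒴))`, for one `λ > 0` or equivalently for all `λ > 0`.
-/

set_option autoImplicit false

namespace Pool.Agent.W5h21.Old.WindowCriterion

open NumberField IsDedekindDomain Pool.Agent.Y707.PH
open Pool.Agent.W353.FB (Fibration ValueAt)

section
variable {K : Type} [Field K] [NumberField K] (R : Finset (HeightOneSpectrum (𝓞 K)))
  {F : Type} [Field F] [NumberField F] [Algebra K F]

/-- The prime `v` of `F` is not above a prime in `R`. -/
def NotAbove (v : HeightOneSpectrum (𝓞 F)) : Prop :=
  ∀ u ∈ R, v.asIdeal.comap (algebraMap (𝓞 K) (𝓞 F)) ≠ u.asIdeal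

open Classical in
/-- The term `b_v (log q_v)^{N+1} q_v^{-(1+λ)}` for the primes `v` which are not above `R`. -/
noncomputable def term (b : HeightOneSpectrum (𝓞 F) → ℝ) (lam : ℝ) (N : ℕ)
    (v : HeightOneSpectrum (𝓞 F)) : ℝ :=
  if NotAbove R v then b v * (Real.log (Ideal.absNorm v.asIdeal) ^ (N + 1) *
    ((Ideal.absNorm v.asIdeal : ℕ) : ℝ) ^ (-(1 + lam))) else 0

/-- The window `T_N(λ) = λ^{N+1} / N! · ∑_v b_v (log q_v)^{N+1} q_v^{-(1+λ)}`. -/
noncomputable def window (b : HeightOneSpectrum (𝓞 F) → ℝ) (lam : ℝ) (N : ℕ) : ℝ :=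
  lam ^ (N + 1) / (N.factorial : ℝ) * ∑' v : HeightOneSpectrum (𝓞 F), term R b lam N v

end

theorem result (K : Type) [Field K] [NumberField K] (f : Fibration K)
    (R : Finset (HeightOneSpectrum (𝓞 K))) (C : ℝ) (hf : IsLisse f R C)
    (F : Type) [Field F] [NumberField F] [Algebra K F]
    (b : HeightOneSpectrum (𝓞 F) → ℝ)
    (hb : ∀ v : HeightOneSpectrum (𝓞 F), NotAbove R v → ValueAt (averageValue f) v (b v))
    (lam : ℝ) (hlam : 0 < lam) :
    (∀ N : ℕ, Summable (term R b lam N)) ∧
    ∀ r : ℤ, HasOrder f R F r ↔
      ∃ ϱ : ℝ, 0 < ϱ ∧ ϱ < 1 ∧ ∃ B : ℝ, ∀ N : ℕ, |window R b lam N - r| ≤ B * ϱ ^ N := by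
  classical
  refine ⟨fun N => ?_, fun r => ?_⟩
  · have h := (Pool.Agent.W5h21.WN.wd_summable hf hb hlam (N + 1)).summable
    refine h.congr fun v => ?_
    unfold term
    by_cases hv : NotAbove R v
    · have hv' : Pool.Agent.W5h21.TB.Gd K R v := hv
      rw [if_pos hv, if_pos hv']
    · have hv' : ¬ Pool.Agent.W5h21.TB.Gd K R v := hv
      rw [if_neg hv, if_neg hv']
  · exact Pool.Agent.W5h21.WN.windows hf hb hlam r

end Pool.Agent.W5h21.Old.WindowCriterion
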